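import Pool.Agent.H32.N6W.TargetsL

/-!
# The local lemma over the real numbers: the interface
-/

set_option autoImplicit false

open Polynomial NumberField IsDedekindDomain Matrix Pool.Agent.H32.QC Pool.Agent.H34.N6
open Pool.Agent.H13.DEV Pool.Agent.H34.N6V Pool.Agent.H63.WT Pool.Agent.H32.N6W

namespace Pool.Agent.H51.N6W

theorem pf_LXR (hEXR : T_EXR) (hLOCR : T_LOCR) : T_LXR := by
  obtain ⟨⟨e, he⟩, _⟩ := hEXR
  refine ⟨e, he, ?_⟩
  intro P1 P2 D h1 h2 hs hd hev hc r1 r2 hcz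
  rw [h1.natDegree_mul h2] at hd
  exact hLOCR e he P1 P2 D h1 h2 hs hd hev hc r1 r2 hcz

end Pool.Agent.H51.N6W
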